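import Mathlib
import Pool.Agent.Q217.MZ.PrefixGen

/-!
# MP_154526_nt: homogeneous relations of bounded shape and height with constant arguments in front

Notation of the problem: `H⁰` is spanned by the words `y_{k_1} ... y_{k_t}` of admissible indices, `Z` is the linear map to
the multiple zeta values. A pattern is a list of letters `(a, b)`; its index at `n` has the arguments `a n + b`; the first
arguments may be constant, such as in `ζ(2, n)`, `ζ(3, 1, n)`, `ζ(2, 1, 1, n, 4)`.

Let `f = ∑ c_w w(n) + ∑ d_(u, v) (u(n) sh v(n))` be an integer combination of bounded height of indices and of shuffle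
products of two indices of given patterns, all of the same weight `S_1 n + S_2`, such that the constant arguments in front of
the first growing one have sum at most four (for products: the sum over both factors). If `n` is large and `f` is in the
kernel of `Z` (or only `|Z f| ≤ N ^ (-n)`), then `f`, and the elements with the same coefficients at all `n' ≥ 2`, are killed by
every solution of the double shuffle equations (stuffle and shuffle product of admissible indices, and Hoffman's relations
`y sh v = y * v`) with values in a `ℚ`-algebra; so they belong to the ideal of the double shuffle relations.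

The starting files `DoubleShuffleHeights` and `UniformDoubleShuffle` need a growing first argument in every index.
-/

set_option autoImplicit false

namespace Pool.Agent.Results.MP_154526_nt.ConstantPrefixes

/-- `trunc [s_1, ..., s_r] m` is the sum of `∏ k_i ^ (-s_i)` over `m > k_1 > ... > k_r ≥ 1` -/
noncomputable def trunc : List ℕ → ℕ → ℝ
  | [], _ => 1
  | s :: l, m => ∑ j ∈ Finset.Ico 1 m, trunc l j / (j : ℝ) ^ s

/-- the multiple zeta value `ζ(s_1, ..., s_r)`, `s_1` belongs to the largest variable -/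
noncomputable def mzv : List ℕ → ℝ
  | [] => 1
  | s :: l => ∑' k : ℕ, trunc l (k + 1) / ((k + 1 : ℕ) : ℝ) ^ s

/-- the word `y_{k_1} ... y_{k_t}`, where `y_k = x ^ (k - 1) y`, `x = false`, `y = true` -/
def word : List ℕ → List Bool
  | [] => []
  | k :: l => List.replicate (k - 1) false ++ true :: word l

/-- `index 0 w` is the list of the `k_i` for the word `w = y_{k_1} ... y_{k_t}` -/
def index : ℕ → List Bool → List ℕ
  | _, [] => []
  | c, true :: u => (c + 1) :: index 0 u
  | c, false :: u => index (c + 1) u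

/-- the list of the shuffles of two words -/
def shuffles : List Bool → List Bool → List (List Bool)
  | [], v => [v]
  | a :: u, [] => [a :: u]
  | a :: u, b :: v => (shuffles u (b :: v)).map (a :: ·) ++ (shuffles (a :: u) v).map (b :: ·)
termination_by u v => u.length + v.length

/-- the list of the indices in the stuffle product of two indices -/
def stuffles : List ℕ → List ℕ → List (List ℕ)
  | [], l => [l]
  | i :: k, [] => [i :: k]
  | i :: k, j :: l => (stuffles k (j :: l)).map (i :: ·) ++ (stuffles (i :: k) l).map (j :: ·) ++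
      (stuffles k l).map ((i + j) :: ·)
termination_by k l => k.length + l.length

/-- integer combinations of words -/
abbrev H : Type := List Bool →₀ ℤ

/-- the sum of a list of words -/
noncomputable def total (L : List (List Bool)) : H := (L.map fun w => Finsupp.single w 1).sum

/-- the linear map `Z` with `Z (y_{k_1} ... y_{k_t}) = ζ(k_1, ..., k_t)` -/
noncomputable def Z : H →ₗ[ℤ] ℝ := Finsupp.linearCombination ℤ fun w => mzv (index 0 w)

/-- the shuffle product of the words `y_{k_1} ... y_{k_s}` and `y_{l_1} ... y_{l_t}` -/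
noncomputable def shuffle (k l : List ℕ) : H := total (shuffles (word k) (word l))

/-- admissible indices: all entries are at least one, the first one is at least two; the empty index is admissible -/
def AdmissibleIndex (l : List ℕ) : Prop := (∀ a ∈ l, 1 ≤ a) ∧ ∀ a t, l = a :: t → 2 ≤ a

/-- solutions of the double shuffle equations: `φ (1) = 1`, `φ (u) φ (v) = φ (u * v)` and `φ (u) φ (v) = φ (u sh v)` for all
words `u`, `v` of admissible indices, and `φ (y sh v) = φ (y * v)` for all words `v` of admissible indices -/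
structure IsSolution {A : Type} [CommRing A] (φ : List Bool → A) : Prop where
  one : φ [] = 1
  stuffle : ∀ k l, AdmissibleIndex k → AdmissibleIndex l →
    φ (word k) * φ (word l) = ((stuffles k l).map fun m => φ (word m)).sum
  shuffle : ∀ k l, AdmissibleIndex k → AdmissibleIndex l →
    φ (word k) * φ (word l) = ((shuffles (word k) (word l)).map φ).sum
  hoffman : ∀ l, AdmissibleIndex l →
    ((shuffles [true] (word l)).map φ).sum = ((stuffles [1] l).map fun m => φ (word m)).sum

/-- admissible patterns: the letter `(0, 0)` does not occur, and a constant first letter is at least two -/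
def AdmissiblePattern (w : List (ℕ × ℕ)) : Prop :=
  (∀ x ∈ w, x ≠ (0, 0)) ∧ ∀ x l, w = x :: l → x.1 = 0 → 2 ≤ x.2

/-- the index with the arguments `a n + b` -/
def args (n : ℕ) (w : List (ℕ × ℕ)) : List ℕ := w.map fun x => x.1 * n + x.2

/-- the sum of the constant arguments in front of the first growing argument -/
def constantWeight : List (ℕ × ℕ) → ℕ
  | [] => 0
  | x :: l => if x.1 = 0 then x.2 + constantWeight l else 0

/-- the element `∑ c_w w(n) + ∑ d_(u, v) (u(n) shuffle v(n))` -/
noncomputable def element (L : Finset (List (ℕ × ℕ))) (P : Finset (List (ℕ × ℕ) × List (ℕ × ℕ))) (n : ℕ)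
    (c : List (ℕ × ℕ) → ℤ) (d : List (ℕ × ℕ) × List (ℕ × ℕ) → ℤ) : H :=
  ∑ w ∈ L, c w • Finsupp.single (word (args n w)) 1 + ∑ p ∈ P, d p • shuffle (args n p.1) (args n p.2)

/-- the linear extension of a function on the words -/
noncomputable def extend {A : Type} [CommRing A] (φ : List Bool → A) : H →ₗ[ℤ] A := Finsupp.linearCombination ℤ φ

lemma trunc_eq : ∀ l m, trunc l m = Pool.Agent.TH507.WD.hr l m := by
  intro l
  induction l with
  | nil => intro m; rw [trunc, Pool.Agent.TH507.WD.hr]
  | cons s l ih =>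
    intro m
    rw [trunc, Pool.Agent.TH507.WD.hr]
    exact Finset.sum_congr rfl fun j _ => by rw [ih]

lemma mzv_eq : mzv = Pool.Agent.TH507.WD.mz := by
  funext l
  cases l with
  | nil => rw [mzv, Pool.Agent.TH507.WD.mz]
  | cons s l =>
    rw [mzv, Pool.Agent.TH507.WD.mz]
    exact tsum_congr fun k => by rw [trunc_eq]

lemma word_eq : word = Pool.Agent.TH507.DS.word := by
  funext l
  induction l with
  | nil => rfl
  | cons k l ih => rw [word, Pool.Agent.TH507.DS.word, ih]

lemma index_eq : ∀ u c, index c u = Pool.Agent.TH507.DS.decA c u := by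
  intro u
  induction u with
  | nil => intro c; rw [index, Pool.Agent.TH507.DS.decA]
  | cons b u ih =>
    intro c
    cases b with
    | true => rw [index, Pool.Agent.TH507.DS.decA, ih]
    | false => rw [index, Pool.Agent.TH507.DS.decA, ih]

lemma shuffles_eq : ∀ u v, shuffles u v = Pool.Agent.TH507.DS.sh u v := by
  intro u v
  induction u, v using Pool.Agent.TH507.DS.sh.induct with
  | case1 v => rw [shuffles, Pool.Agent.TH507.DS.sh]
  | case2 a u => rw [shuffles, Pool.Agent.TH507.DS.sh]
  | case3 a u b v ih1 ih2 => rw [shuffles, Pool.Agent.TH507.DS.sh, ih1, ih2]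

lemma stuffles_eq : ∀ k l, stuffles k l = Pool.Agent.TH507.DS.stI k l := by
  intro k l
  induction k, l using Pool.Agent.TH507.DS.stI.induct with
  | case1 l => rw [stuffles, Pool.Agent.TH507.DS.stI]
  | case2 i k => rw [stuffles, Pool.Agent.TH507.DS.stI]
  | case3 i k j l ih1 ih2 ih3 => rw [stuffles, Pool.Agent.TH507.DS.stI, ih1, ih2, ih3]

lemma shuffle_eq (k l : List ℕ) : shuffle k l = Pool.Agent.TH507.DS.el (Pool.Agent.TH507.DS.sh
    (Pool.Agent.TH507.DS.word k) (Pool.Agent.TH507.DS.word l)) := by
  rw [shuffle, word_eq, shuffles_eq]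
  rfl

lemma Z_eq : Z = Pool.Agent.TH507.DS.Zh := by
  rw [Z, Pool.Agent.TH507.DS.Zh]
  congr 1
  funext w
  rw [mzv_eq, index_eq]

lemma element_eq (L : Finset (List (ℕ × ℕ))) (P : Finset (List (ℕ × ℕ) × List (ℕ × ℕ))) (n : ℕ)
    (c : List (ℕ × ℕ) → ℤ) (d : List (ℕ × ℕ) × List (ℕ × ℕ) → ℤ) :
    element L P n c d = Pool.Agent.Q217.MZ.elA L P n c d := by
  rw [element, Pool.Agent.Q217.MZ.elA]
  simp only [shuffle_eq, word_eq]
  rfl

lemma sol_of {A : Type} [CommRing A] {φ : List Bool → A} (h : IsSolution φ) : Pool.Agent.Q217.MZ.Sol φ where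
  one := h.one
  st := fun k l hk hl => by
    have := h.stuffle k l hk hl
    rw [word_eq, stuffles_eq] at this
    exact this
  sh := fun k l hk hl => by
    have := h.shuffle k l hk hl
    rw [word_eq, shuffles_eq] at this
    exact this
  ho := fun l hl => by
    have := h.hoffman l hl
    rw [word_eq, shuffles_eq, stuffles_eq] at this
    exact this

lemma adm_of {w : List (ℕ × ℕ)} (h : AdmissiblePattern w) : Pool.Agent.Q217.MZ.AdmW w := by
  refine ⟨fun x hx hx0 => ?_, h.2⟩
  have h1 := h.1 x hx
  by_contra hcon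
  exact h1 (Prod.ext hx0 (by simp only; omega))

lemma cw_eq (w : List (ℕ × ℕ)) : constantWeight w = (Pool.Agent.Q217.MZ.cp w).sum.2 := by
  induction w with
  | nil => rfl
  | cons x l ih =>
    rw [constantWeight]
    by_cases h : x.1 = 0
    · rw [if_pos h, Pool.Agent.Q217.MZ.cp_zero l h, List.sum_cons, Prod.snd_add, ih]
    · rw [if_neg h, Pool.Agent.Q217.MZ.cp_pos l h]
      rfl

lemma mel_sum {B : Type} [AddCommMonoid B] (L : Finset (List (ℕ × ℕ))) (P : Finset (List (ℕ × ℕ) × List (ℕ × ℕ)))
    (F : List (ℕ × ℕ) → B) (Q : B → Prop) (hL : ∀ w ∈ L, Q (F w)) (hP : ∀ p ∈ P, Q (F p.1 + F p.2)) :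
    ∀ e, Q ((Pool.Agent.Q217.MZ.mel L P e).map F).sum := by
  intro e
  rcases e with w | p
  · simp only [Pool.Agent.Q217.MZ.mel, List.map_cons, List.map_nil, List.sum_cons, List.sum_nil, add_zero]
    exact hL w.1 w.2
  · simp only [Pool.Agent.Q217.MZ.mel, List.map_cons, List.map_nil, List.sum_cons, List.sum_nil, add_zero]
    exact hP p.1 p.2

lemma mel_adm (L : Finset (List (ℕ × ℕ))) (P : Finset (List (ℕ × ℕ) × List (ℕ × ℕ)))
    (hL : ∀ w ∈ L, AdmissiblePattern w) (hP : ∀ p ∈ P, AdmissiblePattern p.1 ∧ AdmissiblePattern p.2) :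
    ∀ e, ∀ u ∈ Pool.Agent.Q217.MZ.mel L P e, Pool.Agent.Q217.MZ.AdmW u := by
  intro e u hu
  rcases e with w | p
  · simp only [Pool.Agent.Q217.MZ.mel, List.mem_singleton] at hu
    rw [hu]
    exact adm_of (hL w.1 w.2)
  · simp only [Pool.Agent.Q217.MZ.mel, List.mem_cons, List.not_mem_nil, or_false] at hu
    rcases hu with rfl | rfl
    · exact adm_of (hP p.1 p.2).1
    · exact adm_of (hP p.1 p.2).2

/-- **Theorem.** Let `L` be a finite set of admissible patterns and `P` a finite set of pairs of admissible patterns, all of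
the same weight `S = (S_1, S_2)`, with constant weight at most four. There is `N` such that for all `H` and `n ≥ n0(H)` and all
integers `c_w`, `d_p` of absolute value at most `H`: if `f(n) = ∑ c_w w(n) + ∑ d_p (p_1(n) sh p_2(n))` satisfies
`|Z (f(n))| ≤ N ^ (-n)`, then `φ (f(n')) = 0` for all `n' ≥ 2` and all solutions `φ` of the double shuffle equations in
`ℚ`-algebras. -/
theorem result (L : Finset (List (ℕ × ℕ))) (P : Finset (List (ℕ × ℕ) × List (ℕ × ℕ)))
    (hL : ∀ w ∈ L, AdmissiblePattern w) (hP : ∀ p ∈ P, AdmissiblePattern p.1 ∧ AdmissiblePattern p.2) (S : ℕ × ℕ)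
    (hLS : ∀ w ∈ L, w.sum = S) (hPS : ∀ p ∈ P, p.1.sum + p.2.sum = S)
    (hLc : ∀ w ∈ L, constantWeight w ≤ 4) (hPc : ∀ p ∈ P, constantWeight p.1 + constantWeight p.2 ≤ 4) :
    ∃ N : ℕ, 1 ≤ N ∧ ∀ H : ℕ, ∃ n0 : ℕ, ∀ n : ℕ, n0 ≤ n → ∀ (c : List (ℕ × ℕ) → ℤ)
      (d : List (ℕ × ℕ) × List (ℕ × ℕ) → ℤ), (∀ w ∈ L, |c w| ≤ H) → (∀ p ∈ P, |d p| ≤ H) →
      |Z (element L P n c d)| ≤ ((N : ℝ) ^ n)⁻¹ →
      ∀ n' : ℕ, 2 ≤ n' → ∀ (A : Type) [CommRing A] [Algebra ℚ A] (φ : List Bool → A), IsSolution φ →
        extend φ (element L P n' c d) = 0 := by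
  classical
  obtain ⟨N, hN, h⟩ := Pool.Agent.Q217.MZ.gen_four (Pool.Agent.Q217.MZ.mel L P) (mel_adm L P hL hP)
    (mel_sum L P (fun u => (Pool.Agent.Q217.MZ.cp u).sum.2) (fun x => x ≤ 4)
      (fun w hw => by have := hLc w hw; rw [cw_eq] at this; exact this)
      (fun p hp => by have := hPc p hp; rw [cw_eq, cw_eq] at this; exact this)) S
    (mel_sum L P List.sum (fun x => x = S) hLS hPS)
  refine ⟨N, hN, fun H => ?_⟩
  obtain ⟨n0, h⟩ := h H
  refine ⟨n0 + 2, fun n hn c d hc hd hsmall n' hn' A _ _ φ hφ => ?_⟩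
  have hL' := fun w hw => adm_of (hL w hw)
  have hP' := fun p hp => And.intro (adm_of (hP p hp).1) (adm_of (hP p hp).2)
  have hs := sol_of hφ
  rw [Z_eq, element_eq, Pool.Agent.Q217.MZ.Zh_elA L P hL' hP' (show 2 ≤ n by omega)] at hsmall
  have h1 := h n (by omega) (Sum.elim (fun w : L => c w.1) (fun p : P => d p.1)) (by
    rintro (w | p)
    · exact hc w.1 w.2
    · exact hd p.1 p.2) hsmall A (fun l => φ (Pool.Agent.TH507.DS.word l)) hs.StI hs.h21 hs.h31 hs.h22 hs.h211 n' hn'
  rw [element_eq]
  have h2 : extend φ = Pool.Agent.Q217.MZ.ext φ := rfl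
  rw [h2, Pool.Agent.Q217.MZ.ext_elA φ L P hL' hP' hs.sh hn' c d]
  have h3 : (algebraMap ℚ A (1 / 4)) * 4 = 1 := by
    rw [← map_ofNat (algebraMap ℚ A) 4, ← map_mul]
    norm_num
  have h4 := congrArg (fun x => (algebraMap ℚ A (1 / 4)) * x) h1
  simp only [mul_zero] at h4
  rw [← mul_assoc, h3, one_mul] at h4
  exact h4

end Pool.Agent.Results.MP_154526_nt.ConstantPrefixes
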