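import Pool.Agent.Q29.EqExp
import Pool.Agent.Q29.MzBd
import Pool.Agent.Results.MP_154526_nt.DoubleShuffleHeights

/-!
# Double shuffle relations, or joint uniform distribution of the multiples

Let `L` be a finite set of patterns `((a_1, b_1), …, (a_r, b_r))`, `a_1 ≥ 1` (`a_1` belongs to the largest variable), without
letter `(0, 0)`, and `P` a finite set of pairs of patterns. Let `f_1, …, f_s` be integral combinations with coefficients at
most `C ^ n` of the indices `w(n) = (a_1 n + b_1, …, a_r n + b_r)`, `w ∈ L`, and the shuffle products `u(n) sh v(n)`, `(u, v) ∈ P`.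
Suppose that no combination `a + ∑ v_i f_i`, with integers `a` and `v_i`, not all `v_i` zero, is an integral combination of
double shuffle elements. There is `D > 1`, depending on `L`, `P`, `C` and `s`, such that for all `E` and `K` there is `κ > 0` such
that for all large `n`, all such `f_i` and all `M` with `D ^ n ≤ M ≤ E ^ n` the multiples of the vector `(Z(f_1), …, Z(f_s))` by
the integers up to `M`, by their powers of degree up to `K` (even with real polynomials of smaller degree added), and by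
the primes up to `M` in each residue class modulo `d ≤ M ^ κ` are jointly uniformly distributed modulo one in the cubes
of side `1 / q`, `q ≤ M ^ κ`, with an error `M ^ (1 - κ)`.

The proof uses the starting hand-in `DoubleShuffleHeights`, an inverse theorem for the sums of Weyl and a form of the
estimate of Vinogradov for the sums over primes with a power saving (`H373R2/NB`, `W110/HV`).
-/

set_option autoImplicit false

namespace Pool.Agent.Results.MP_154526_nt.JointMultiples

open Finset Polynomial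
open Pool.Agent.Results.MP_154526_nt.DoubleShuffleHeights (trunc mzv word index shuffles H Z shuffle doubleShuffle
  Admissible args element)

/-- The points `y n ∈ ℝ ^ s`, `n ∈ S`, are uniformly distributed modulo one with error `E` in the cubes of side `1 / q`,
`q ≤ Q`. -/
def Equi {s : ℕ} (S : Finset ℕ) (y : ℕ → Fin s → ℝ) (Q E : ℝ) : Prop :=
  ∀ q : ℕ, 1 ≤ q → (q : ℝ) ≤ Q → ∀ ρ : Fin s → ℤ, (∀ j, 0 ≤ ρ j ∧ ρ j < q) →
    |((S.filter fun n => ∀ j, (ρ j : ℝ) / q ≤ Int.fract (y n j) ∧ Int.fract (y n j) < (ρ j + 1) / q).card : ℝ) -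
      S.card / (q : ℝ) ^ s| ≤ E

/-- The multiples of the vector `x` are uniformly distributed modulo one at the scale `M`, with a power saving, along all
polynomials of degree `k ≤ K` (the points `x n ^ k + R(n)`, `0 ≤ n < M`, `R` a vector of real polynomials of degree less
than `k`), and along the primes in all residue classes modulo `d ≤ M ^ κ` (the points `x p + β`, `p ≤ M` prime,
`p ≡ r (mod d)`). -/
def Joint (κ : ℝ) (K M : ℕ) {s : ℕ} (x : Fin s → ℝ) : Prop :=
  (∀ k : ℕ, 1 ≤ k → k ≤ K → ∀ R : Fin s → ℝ[X], (∀ j, (R j).degree < k) →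
    Equi (range M) (fun n j => x j * (n : ℝ) ^ k + (R j).eval (n : ℝ)) ((M : ℝ) ^ κ) ((M : ℝ) ^ (1 - κ))) ∧
  (∀ d r : ℕ, 1 ≤ d → (d : ℝ) ≤ (M : ℝ) ^ κ → ∀ β : Fin s → ℝ,
    Equi ((range (M + 1)).filter fun p => p.Prime ∧ p ≡ r [MOD d]) (fun p j => x j * p + β j) ((M : ℝ) ^ κ)
      ((M : ℝ) ^ (1 - κ)))

theorem joint_iff (κ : ℝ) (K M : ℕ) {s : ℕ} (x : Fin s → ℝ) : Joint κ K M x ↔ Pool.Agent.Q29.Eqd.Joint κ K M x :=
  Iff.rfl

/-- the integral combinations of double shuffle elements `u sh v - u * v` -/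
noncomputable def Relations : Submodule ℤ H := Submodule.span ℤ (Set.range fun p : List ℕ × List ℕ => doubleShuffle p.1 p.2)

theorem trunc_eq (w : List ℕ) : ∀ m, trunc w m = Pool.Agent.Y760.ZG.hr w m := by
  induction w with
  | nil => intro m; rw [trunc, Pool.Agent.Y760.ZG.hr_nil]
  | cons s w ih =>
    intro m
    rw [trunc, Pool.Agent.Y760.ZG.hr_cons]
    exact Finset.sum_congr rfl fun j _ => by rw [ih]

theorem mzv_eq (w : List ℕ) : mzv w = Pool.Agent.Y760.ZG.mz w := by
  cases w with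
  | nil => rw [mzv, Pool.Agent.Y760.ZG.mz]
  | cons s w =>
    rw [mzv, Pool.Agent.Y760.ZG.mz]
    exact tsum_congr fun m => by rw [trunc_eq]

/-- the linearity of the elements in their coefficients -/
theorem element_lin (L : Finset (List (ℕ × ℕ))) (P : Finset (List (ℕ × ℕ) × List (ℕ × ℕ))) (n s : ℕ) (a : ℤ)
    (v : Fin s → ℤ) (c : Fin s → List (ℕ × ℕ) → ℤ) (d : Fin s → List (ℕ × ℕ) × List (ℕ × ℕ) → ℤ) :
    element L P n a (fun w => ∑ i, v i * c i w) (fun p => ∑ i, v i * d i p) =
      a • Finsupp.single [] 1 + ∑ i, v i • element L P n 0 (c i) (d i) := by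
  unfold element
  simp only [zero_smul, zero_add, smul_add, Finset.sum_add_distrib, Finset.sum_smul, Finset.smul_sum, mul_smul]
  rw [Finset.sum_comm, Finset.sum_comm (s := P), add_assoc]

theorem mzv_eq' (l : List ℕ) : mzv l = Pool.Agent.TH507.WD.mz l := by
  have h1 : ∀ l m, trunc l m = Pool.Agent.TH507.WD.hr l m := by
    intro l
    induction l with
    | nil => intro m; rw [trunc, Pool.Agent.TH507.WD.hr]
    | cons s l ih =>
      intro m
      rw [trunc, Pool.Agent.TH507.WD.hr]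
      exact Finset.sum_congr rfl fun j _ => by rw [ih]
  cases l with
  | nil => rw [mzv, Pool.Agent.TH507.WD.mz]
  | cons s l =>
    rw [mzv, Pool.Agent.TH507.WD.mz]
    exact tsum_congr fun k => by rw [h1]

theorem word_eq (l : List ℕ) : word l = Pool.Agent.TH507.DS.word l := by
  induction l with
  | nil => rfl
  | cons k l ih => rw [word, Pool.Agent.TH507.DS.word, ih]

theorem index_eq (u : List Bool) : ∀ c, index c u = Pool.Agent.TH507.DS.decA c u := by
  induction u with
  | nil => intro c; rw [index, Pool.Agent.TH507.DS.decA]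
  | cons b u ih =>
    intro c
    cases b with
    | true => rw [index, Pool.Agent.TH507.DS.decA, ih]
    | false => rw [index, Pool.Agent.TH507.DS.decA, ih]

theorem shuffles_eq (u v : List Bool) : shuffles u v = Pool.Agent.TH507.DS.sh u v := by
  induction u, v using Pool.Agent.TH507.DS.sh.induct with
  | case1 v => rw [shuffles, Pool.Agent.TH507.DS.sh]
  | case2 a u => rw [shuffles, Pool.Agent.TH507.DS.sh]
  | case3 a u b v ih1 ih2 => rw [shuffles, Pool.Agent.TH507.DS.sh, ih1, ih2]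

theorem Z_single (w : List Bool) : Z (Finsupp.single w 1) = mzv (index 0 w) := by
  rw [Z, Finsupp.linearCombination_single, one_smul]

theorem word_adm {w : List (ℕ × ℕ)} (hw : Admissible w) : Pool.Agent.TH507.WG.HP w ∧ Pool.Agent.TH507.WG.OK w := by
  cases w with
  | nil => exact hw.elim
  | cons x l =>
    refine ⟨hw.1, fun y hy hy1 => ?_⟩
    rcases List.mem_cons.1 hy with rfl | hy
    · have h13 := hw.1
      omega
    · have h13 := hw.2 y hy
      by_contra h14
      exact h13 (Prod.ext hy1 (by show y.2 = 0; omega))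

theorem args_eq (n : ℕ) (w : List (ℕ × ℕ)) : args n w = Pool.Agent.TH507.WG.ar n w := rfl

theorem Z_word {n : ℕ} (hn : 1 ≤ n) {w : List (ℕ × ℕ)} (hw : Admissible w) :
    Z (Finsupp.single (word (args n w)) 1) = mzv (args n w) := by
  rw [Z_single, index_eq, word_eq, mzv_eq', mzv_eq', args_eq]
  exact Pool.Agent.TH507.DS.mz_word hn (word_adm hw).2

theorem Z_shuffle {n : ℕ} {u v : List (ℕ × ℕ)} (hu : Admissible u) (hv : Admissible v) (hun : u.length + 1 ≤ n)
    (hvn : v.length + 1 ≤ n) : Z (shuffle (args n u) (args n v)) = mzv (args n u) * mzv (args n v) := by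
  have h1 := Pool.Agent.TH507.DS.mz_shuffle
    (Pool.Agent.TH507.DS.good_ar (word_adm hu).1 (word_adm hu).2 hun)
    (Pool.Agent.TH507.DS.good_ar (word_adm hv).1 (word_adm hv).2 hvn)
  rw [mzv_eq', mzv_eq', args_eq, args_eq, h1]
  unfold shuffle DoubleShuffleHeights.total
  rw [word_eq, word_eq, shuffles_eq, map_list_sum, List.map_map]
  congr 1
  refine List.map_congr_left fun w _ => ?_
  rw [Function.comp_apply, Z_single, index_eq, mzv_eq']

theorem Z_element (L : Finset (List (ℕ × ℕ))) (P : Finset (List (ℕ × ℕ) × List (ℕ × ℕ)))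
    (hL : ∀ w ∈ L, Admissible w) (hP : ∀ p ∈ P, Admissible p.1 ∧ Admissible p.2) (n : ℕ) (hn : 1 ≤ n)
    (hPn : ∀ p ∈ P, p.1.length + 1 ≤ n ∧ p.2.length + 1 ≤ n) (a : ℤ) (c : List (ℕ × ℕ) → ℤ)
    (d : List (ℕ × ℕ) × List (ℕ × ℕ) → ℤ) :
    Z (element L P n a c d) = a + ∑ w ∈ L, (c w : ℝ) * mzv (args n w) +
      ∑ p ∈ P, (d p : ℝ) * (mzv (args n p.1) * mzv (args n p.2)) := by
  unfold element
  rw [map_add, map_add, map_sum, map_sum, map_zsmul, Z_single]
  have e1 : mzv (index 0 []) = 1 := by rw [index, mzv]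
  rw [e1, zsmul_eq_mul, mul_one]
  congr 1
  · congr 1
    refine Finset.sum_congr rfl fun w hw => ?_
    rw [map_zsmul, Z_word hn (hL w hw), zsmul_eq_mul]
  · refine Finset.sum_congr rfl fun p hp => ?_
    rw [map_zsmul, Z_shuffle (hP p hp).1 (hP p hp).2 (hPn p hp).1 (hPn p hp).2, zsmul_eq_mul]

theorem word_le {n : ℕ} {w : List (ℕ × ℕ)} (hw : Admissible w) (hn : w.length + 1 ≤ n) : |mzv (args n w)| ≤ 2 := by
  rw [mzv_eq]
  refine Pool.Agent.Q29.Eqd.abs_mz_le _ fun t ht => ?_
  cases w with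
  | nil => exact hw.elim
  | cons x l =>
    have h1 : 1 ≤ x.1 := hw.1
    rw [args, List.map_cons, List.head?_cons, Option.mem_def, Option.some.injEq] at ht
    rw [args, List.length_map]
    have h3 : 1 * n ≤ x.1 * n := Nat.mul_le_mul_right n h1
    omega

/-- **Double shuffle relations, or joint uniform distribution of the multiples.** -/
theorem result (L : Finset (List (ℕ × ℕ))) (P : Finset (List (ℕ × ℕ) × List (ℕ × ℕ)))
    (hL : ∀ w ∈ L, Admissible w) (hP : ∀ p ∈ P, Admissible p.1 ∧ Admissible p.2) (C : ℝ) (s : ℕ) (hs : 1 ≤ s) :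
    ∃ D : ℝ, 1 < D ∧ ∀ (E : ℝ) (K : ℕ), ∃ κ : ℝ, 0 < κ ∧ ∃ n0 : ℕ, ∀ n : ℕ, n0 ≤ n →
      ∀ (c : Fin s → List (ℕ × ℕ) → ℤ) (d : Fin s → List (ℕ × ℕ) × List (ℕ × ℕ) → ℤ),
      (∀ i, ∀ w ∈ L, |(c i w : ℝ)| ≤ C ^ n) → (∀ i, ∀ p ∈ P, |(d i p : ℝ)| ≤ C ^ n) →
      (∀ (a : ℤ) (v : Fin s → ℤ), v ≠ 0 →
        a • Finsupp.single [] 1 + ∑ i, v i • element L P n 0 (c i) (d i) ∉ Relations) →
      ∀ M : ℕ, D ^ n ≤ (M : ℝ) → (M : ℝ) ≤ E ^ n →
        Joint κ K M (fun i => Z (element L P n 0 (c i) (d i))) := by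
  obtain ⟨C', hC'⟩ : ∃ C' : ℝ, C' = |C| + 1 := ⟨_, rfl⟩
  have hC'1 : 1 ≤ C' := by rw [hC']; linarith [abs_nonneg C]
  have hCC : ∀ n, C ^ n ≤ C' ^ n := fun n => by
    refine (le_abs_self _).trans ?_
    rw [abs_pow]
    exact pow_le_pow_left₀ (abs_nonneg _) (by rw [hC']; linarith) n
  obtain ⟨Y, hY⟩ : ∃ Y : ℝ, Y = 1 + (2 * L.card + 4 * P.card) := ⟨_, rfl⟩
  have hY1 : 1 ≤ Y := by
    rw [hY]
    have : (0 : ℝ) ≤ 2 * (L.card : ℝ) + 4 * P.card := by positivity
    linarith
  obtain ⟨X, hXE⟩ : ∃ X : ℝ, X = C' * Y := ⟨_, rfl⟩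
  have hX : 1 ≤ X := by rw [hXE]; nlinarith
  have hs1 : (1 : ℝ) ≤ s := by exact_mod_cast hs
  obtain ⟨B, hB, n0, hmain⟩ := Pool.Agent.Results.MP_154526_nt.DoubleShuffleHeights.result L P hL hP (s * (2 * C'))
  refine ⟨B ^ 2, one_lt_pow₀ hB (by norm_num), fun E K => ?_⟩
  obtain ⟨κ, hκ, n₁, hjoint⟩ := Pool.Agent.Q29.Eqd.joint_exp s hs K 2 B X E (by norm_num) hB hX
  refine ⟨κ, hκ, n0 + n₁ + (∑ w ∈ L, w.length) + (∑ p ∈ P, (p.1.length + p.2.length)) + 1,
    fun n hn c d hc hd hind M hDM hME => ?_⟩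
  have hLn : ∀ w ∈ L, w.length + 1 ≤ n := fun w hw => by
    have := Finset.single_le_sum (f := fun w : List (ℕ × ℕ) => w.length) (fun _ _ => Nat.zero_le _) hw
    omega
  have hPn : ∀ p ∈ P, p.1.length + 1 ≤ n ∧ p.2.length + 1 ≤ n := fun p hp => by
    have := Finset.single_le_sum (f := fun p : List (ℕ × ℕ) × List (ℕ × ℕ) => p.1.length + p.2.length)
      (fun _ _ => Nat.zero_le _) hp
    omega
  rw [joint_iff]
  refine hjoint n (by omega) _ (fun i => ?_) (fun v a hv hvA haA => ?_) M hDM hME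
  · rw [Z_element L P hL hP n (by omega) hPn]
    have h1 : |∑ w ∈ L, (c i w : ℝ) * mzv (args n w)| ≤ C' ^ n * (2 * L.card) := by
      calc |∑ w ∈ L, (c i w : ℝ) * mzv (args n w)| ≤ ∑ w ∈ L, |(c i w : ℝ) * mzv (args n w)| :=
            Finset.abs_sum_le_sum_abs _ _
        _ ≤ ∑ _w ∈ L, C' ^ n * 2 := by
            refine Finset.sum_le_sum fun w hw => ?_
            rw [abs_mul]
            exact mul_le_mul ((hc i w hw).trans (hCC n)) (word_le (hL w hw) (hLn w hw)) (abs_nonneg _) (by positivity)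
        _ = _ := by
            rw [Finset.sum_const, nsmul_eq_mul]
            ring
    have h2 : |∑ p ∈ P, (d i p : ℝ) * (mzv (args n p.1) * mzv (args n p.2))| ≤ C' ^ n * (4 * P.card) := by
      calc |∑ p ∈ P, (d i p : ℝ) * (mzv (args n p.1) * mzv (args n p.2))| ≤
            ∑ p ∈ P, |(d i p : ℝ) * (mzv (args n p.1) * mzv (args n p.2))| := Finset.abs_sum_le_sum_abs _ _
        _ ≤ ∑ _p ∈ P, C' ^ n * 4 := by
            refine Finset.sum_le_sum fun p hp => ?_
            rw [abs_mul, abs_mul]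
            refine mul_le_mul ((hd i p hp).trans (hCC n)) ?_ (by positivity) (by positivity)
            calc |mzv (args n p.1)| * |mzv (args n p.2)| ≤ 2 * 2 :=
                  mul_le_mul (word_le (hP p hp).1 (hPn p hp).1) (word_le (hP p hp).2 (hPn p hp).2) (abs_nonneg _)
                    (by norm_num)
              _ = 4 := by norm_num
        _ = _ := by
            rw [Finset.sum_const, nsmul_eq_mul]
            ring
    have h3 : |((0 : ℤ) : ℝ) + ∑ w ∈ L, (c i w : ℝ) * mzv (args n w) +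
        ∑ p ∈ P, (d i p : ℝ) * (mzv (args n p.1) * mzv (args n p.2))| ≤ C' ^ n * (2 * L.card + 4 * P.card) := by
      rw [Int.cast_zero, zero_add, mul_add]
      exact (abs_add_le _ _).trans (add_le_add h1 h2)
    refine h3.trans ?_
    calc C' ^ n * (2 * (L.card : ℝ) + 4 * P.card) ≤ C' ^ n * Y := mul_le_mul_of_nonneg_left (by rw [hY]; linarith) (by positivity)
      _ ≤ C' ^ n * Y ^ n := mul_le_mul_of_nonneg_left (le_self_pow₀ hY1 (by omega)) (by positivity)
      _ = X ^ n := by rw [hXE, mul_pow]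
  · have hbd : ∀ (g : Fin s → ℤ), (∀ i, |(g i : ℝ)| ≤ C ^ n) → |((∑ i, v i * g i : ℤ) : ℝ)| ≤ (s * (2 * C')) ^ n := by
      intro g hg
      push_cast
      calc |∑ i, (v i : ℝ) * (g i : ℝ)| ≤ ∑ i, |(v i : ℝ) * (g i : ℝ)| := Finset.abs_sum_le_sum_abs _ _
        _ ≤ ∑ _i : Fin s, (2 : ℝ) ^ n * C' ^ n := by
            refine Finset.sum_le_sum fun i _ => ?_
            rw [abs_mul]
            exact mul_le_mul (hvA i) ((hg i).trans (hCC n)) (abs_nonneg _) (by positivity)
        _ = s * ((2 : ℝ) ^ n * C' ^ n) := by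
            rw [Finset.sum_const, Finset.card_univ, Fintype.card_fin, nsmul_eq_mul]
        _ ≤ (s : ℝ) ^ n * ((2 : ℝ) ^ n * C' ^ n) :=
            mul_le_mul_of_nonneg_right (le_self_pow₀ hs1 (by omega)) (by positivity)
        _ = _ := by rw [mul_pow, mul_pow]
    have h1 := hmain n (by omega) (-a) (fun w => ∑ i, v i * c i w) (fun p => ∑ i, v i * d i p)
      (fun w hw => hbd _ fun i => hc i w hw) (fun p hp => hbd _ fun i => hd i p hp)
    rw [element_lin] at h1
    rcases h1 with ⟨h1, -⟩ | h1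
    · exfalso
      refine hind (-a) v hv ?_
      rw [h1]
      exact Submodule.sum_mem _ fun p _ => Submodule.smul_mem _ _ (Submodule.subset_span ⟨(args n p.1, args n p.2), rfl⟩)
    · refine lt_of_lt_of_eq h1 ?_
      congr 1
      rw [map_add, map_zsmul, Z_single, map_sum]
      have e1 : mzv (index 0 []) = 1 := by rw [index, mzv]
      rw [e1, zsmul_eq_mul, mul_one]
      have e2 : ∀ i, Z (v i • element L P n 0 (c i) (d i)) = (v i : ℝ) * Z (element L P n 0 (c i) (d i)) := fun i => by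
        rw [map_zsmul, zsmul_eq_mul]
      simp only [e2]
      push_cast
      ring

end Pool.Agent.Results.MP_154526_nt.JointMultiples
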