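import Pool.Agent.Q263.ZO.DShuffle

/-!
# Double shuffle relations: relations of arbitrarily small depth in infinitely many weights suffice

`H0 p d` is the space of the combinations of the words of admissible indices of weight `p` and depth at
most `d`, `ev` the map `Z` of the problem, `DS p` the span of the regularized double shuffle elements
of weight `p`, and `DSI p` the part of weight `p` of the ideal of the shuffle algebra generated by them;
all this is defined concretely. `Suff p d` (`SuffI p d`) says that all relations between multiple zeta
values of weight `p` and depth at most `d` are in `DS p` (`DSI p`). Question Q1 is `Suff p p` for all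
`p`; it implies `SuffI p p` for all `p`, that is, all relations follow algebraically from the shuffle
and stuffle relations with their regularized versions.

The input (`Formal`) is Racinet's theorem that the algebra of formal multiple zeta values, the quotient
by the ideal, is an integral domain, and the theorem of Ihara, Kaneko and Zagier that the real values
satisfy the relations. Theorem:

1. If `SuffI P D` holds then `SuffI p d` for all `p ≤ P - 2`, `d ≤ D - 1`.
2. Let `g` be any function with `g P → ∞`, for instance the integral part of `log log P`. If for
   infinitely many `P` all relations of weight `P` between multiple zeta values of depth at most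
   `g P` are combinations of regularized double shuffle relations of weight `P` (or only in the ideal),
   then `SuffI p p` holds for all `p`. So the algebraic form of Q1 is equivalent to this.
3. Suppose that some relation of weight `n` and depth at most `d` is not in the ideal. Then for all
   `N`, `e` the multiple zeta values of weight `n + N` and depth at most `d + e` satisfy, modulo the
   ideal, at least `f(N, e)` independent further relations, where `f(N, e)` is the dimension of the
   span of the formal multiple zeta values of weight `N` and depth at most `e`.
-/

set_option autoImplicit false

open Module Filter

namespace Pool.Agent.Results.MP_154526_nt.SmallDepthSuffices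

open Pool.Agent.Q263.ZO.DSh

theorem result (M : Formal) :
    (∀ p d, Suff p d → SuffI p d) ∧
    (∀ P D p d, SuffI P D → p + 2 ≤ P → d + 1 ≤ D → SuffI p d) ∧
    (∀ g : ℕ → ℕ, Tendsto g atTop atTop →
      ((∃ᶠ P in atTop, Suff P (g P)) → ∀ p, SuffI p p) ∧
      ((∀ p, SuffI p p) ↔ ∃ᶠ P in atTop, SuffI P (g P))) ∧
    (∀ n d N e, ¬ SuffI n d →
      finrank ℚ ((H0 (n + N) (d + e)).map ev) + finrank ℚ ((H0 N e).map M.cl) ≤
        finrank ℚ ((H0 (n + N) (d + e)).map M.cl)) := by
  refine ⟨fun p d h => h.toI, fun P D p d h hp hd => M.down P D p d h hp hd, fun g hg => ⟨?_, ?_⟩,
    fun n d N e h => M.step n d N e h⟩
  · intro h
    exact (M.iff_function g hg).2 (h.mono fun P hP => hP.toI)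
  · exact M.iff_function g hg

end Pool.Agent.Results.MP_154526_nt.SmallDepthSuffices
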